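import Pool.Agent.Helper70.KN.Goals4

/-! Packet KN-SLD: one slice. -/

set_option autoImplicit false

open MeasureTheory Set
open Pool.Agent.Helper70.KN

namespace Pool.Agent.Helper52.KN.SLD

variable {N : ℕ}

lemma zr_meas (J : Finset (Fin N)) : Measurable (zr J) := by
  refine measurable_pi_lambda _ fun i => ?_
  unfold zr
  by_cases h : i ∈ J
  · simp only [h, if_true]
    exact measurable_const
  · simp only [h, if_false]
    exact measurable_pi_apply i

theorem t (hRH : S_RH) (hDM : S_DM) (hHO : S_HO) : S_SLD := by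
  intro N V L ω hC i j s hji hs
  obtain ⟨-, -, hmem, -, -, hnn, -⟩ := hRH N V L ω hC
  have hω : 0 < ω := hC.2.2.1
  have hdm0 : ∀ k x, 0 ≤ dm L k x := fun k x => ((hDM N V L ω hC k).2.2.1 x).1
  have hdmω : ∀ k x, dm L k x ≤ ω := fun k x => ((hDM N V L ω hC k).2.2.1 x).2
  have hdmm : ∀ k, Measurable (dm L k) := fun k => (hDM N V L ω hC k).2.2.2.1
  have hdms : ∀ k x (c : ℝ), 0 < c → dm L k (fun j => c * x j) = dm L k x :=
    fun k => (hDM N V L ω hC k).2.2.2.2.1
  have hsl0 : ∀ x, 0 ≤ sl L ω i j x := by
    intro x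
    unfold sl
    exact add_nonneg hω.le (Finset.sum_nonneg fun k _ => hdm0 k _)
  have hslm : Measurable (sl L ω i j) := by
    unfold sl
    refine measurable_const.add (Finset.measurable_fun_sum _ fun k _ => ?_)
    exact (hdmm k).comp (zr_meas {j})
  have hsls : ∀ x (c : ℝ), 0 < c →
      sl L ω i j (fun k => if k = j then x k else c * x k) = sl L ω i j x := by
    intro x c hc
    have h1 : zr {j} (fun k => if k = j then x k else c * x k) = fun k => c * zr {j} x k := by
      funext k
      unfold zr
      by_cases h : k = j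
      · subst h
        simp
      · simp [h]
    unfold sl
    rw [h1]
    congr 1
    exact Finset.sum_congr rfl fun k _ => hdms k _ c hc
  obtain ⟨q, hq⟩ : ∃ q : (Fin N → ℝ) → ℝ, q = fun x => max 0 (1 - s * sl L ω i j x) := ⟨_, rfl⟩
  have hN2 : 2 ≤ N := by
    have h1 := i.isLt
    have h2 := j.isLt
    have h3 : (i : ℕ) ≠ (j : ℕ) := fun h => hji (Fin.ext h.symm)
    omega
  have h := hHO N hN2 V L ω hC j q
    (by
      rw [hq]
      exact measurable_const.max (measurable_const.sub (measurable_const.mul hslm)))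
    (by
      intro x
      rw [hq]
      refine ⟨le_max_left _ _, max_le zero_le_one ?_⟩
      have := mul_nonneg hs (hsl0 x)
      linarith)
    (by
      intro x c hc
      rw [hq]
      show max 0 (1 - s * sl L ω i j (fun k => if k = j then x k else c * x k)) = _
      rw [hsls x c hc])
  rw [hq] at h
  refine h.trans (measure_mono ?_)
  rintro x ⟨hx0, hxj, hxq⟩
  refine ⟨hx0, hxj, ?_⟩
  have hz0 : 0 ≤ zr {j} x := by
    intro k
    unfold zr
    by_cases h : k ∈ ({j} : Finset (Fin N))
    · simp [h]
    · simp only [h, if_false]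
      exact hx0 k
  have hρ0 := hnn (zr {j} x) hz0
  have hlt : rho L (zr {j} x) < 1 - s * sl L ω i j x := by
    rcases max_cases 0 (1 - s * sl L ω i j x) with ⟨h1, _⟩ | ⟨h1, _⟩
    · have : rho L (zr {j} x) < 0 := by
        have h2 := hxq
        simp only [h1] at h2
        exact h2
      linarith
    · have h2 := hxq
      simp only [h1] at h2
      exact h2
  obtain ⟨v, hv⟩ : ∃ v : Fin N → ℝ, v = fun k => if k = i then 0 else s := ⟨_, rfl⟩
  have hv0 : 0 ≤ v := by
    intro k
    rw [hv]
    simp only [Pi.zero_apply]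
    split_ifs
    · exact le_refl _
    · exact hs
  have hy : (fun k => if k = j then s else if k = i then x k else x k + s) =
      fun k => zr {j} x k + v k := by
    funext k
    rw [hv]
    unfold zr
    by_cases h1 : k = j
    · subst h1
      simp [hji]
    · by_cases h2 : k = i
      · subst h2
        simp [h1]
      · simp [h1, h2]
  have hlast := (hDM N V L ω hC i).2.2.2.2.2 (zr {j} x) v hv0
  have hsum : ∑ k, dm L k (zr {j} x) * v k ≤ s * sl L ω i j x := by
    have h1 : ∑ k, dm L k (zr {j} x) * v k =
        ∑ k ∈ Finset.univ.erase i, dm L k (zr {j} x) * s := by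
      rw [← Finset.add_sum_erase _ _ (Finset.mem_univ i)]
      have h2 : dm L i (zr {j} x) * v i = 0 := by
        rw [hv]
        simp
      rw [h2, zero_add]
      apply Finset.sum_congr rfl
      intro k hk
      rw [hv]
      simp [Finset.ne_of_mem_erase hk]
    rw [h1, ← Finset.sum_mul,
      ← Finset.add_sum_erase _ _ (Finset.mem_erase.2 ⟨hji, Finset.mem_univ j⟩)]
    unfold sl
    have h3 := hdmω j (zr {j} x)
    rw [mul_comm]
    apply mul_le_mul_of_nonneg_left _ hs
    linarith
  intro hmemy
  rw [hy] at hmemy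
  have hy0 : 0 ≤ fun k => zr {j} x k + v k := fun k => add_nonneg (hz0 k) (hv0 k)
  have h5 := (hmem _ hy0).1 hmemy
  linarith

end Pool.Agent.Helper52.KN.SLD
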